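import Pool.Agent.ENR.Main

/-!
# The universal family of cubic fourfolds over the Enriques divisor is unirational

`D = {F | Ψ(F) = 0}` is an irreducible hypersurface in the space of cubic forms in six variables,
invariant under linear changes of coordinates; the smooth cubics in `D` that contain an Enriques
surface of degree ten are Zariski dense in `D`; `D` is the only irreducible hypersurface that
contains all smooth cubics with such a surface, provided there is one; and the universal family
`{(F, z) : F ∈ D, F(z) = 0}` is unirational.
-/

namespace Pool.Agent.Results.MP_0df726_ag.UniversalFamily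

open MvPolynomial Pool.Agent.ENR

theorem result : ∃ Ψ : MvPolynomial Mon ℂ, Irreducible Ψ ∧
    (∀ P : MvPolynomial Mon ℂ,
      (∀ F, eval F Ψ = 0 → SmoothForm F → ContainsEnriques F → eval F P = 0) →
        ∀ F, eval F Ψ = 0 → eval F P = 0) ∧
    Unirational (univFamily {F | eval F Ψ = 0}) ∧
    (∀ (g : Matrix (Fin 6) (Fin 6) ℂ) (F F' : Mon → ℂ), (∀ z, val F' z = val F (g.mulVec z)) →
      eval F Ψ = 0 → eval F' Ψ = 0) ∧
    (∀ Ψ' : MvPolynomial Mon ℂ, Irreducible Ψ' →
      (∀ F, SmoothForm F → ContainsEnriques F → eval F Ψ' = 0) →
        {F | eval F Ψ' = 0} = {F | eval F Ψ = 0}) := main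

end Pool.Agent.Results.MP_0df726_ag.UniversalFamily
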